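import Pool.Agent.P.MP_407208_co.Count1

set_option autoImplicit false

namespace Pool.Agent.P.MP_407208_co

theorem count_0_4 : countPaths (both 0 4) 11 = 968224 := by decide +kernel

theorem count_3_2 : countPaths (both 3 2) 11 = 968224 := by decide +kernel

end Pool.Agent.P.MP_407208_co
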