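import Mathlib

set_option autoImplicit false

namespace Pool.Agent.P.MP_407208_co

/-- The number with base `2^64` digits `c 0, ..., c (N-1)`. -/
def pack (c : ℕ → ℕ) (N : ℕ) : ℕ := ∑ i ∈ Finset.range N, 2 ^ (64 * i) * c i

theorem pack_lt (c : ℕ → ℕ) (N : ℕ) (hc : ∀ i < N, c i < 2 ^ 64) : pack c N < 2 ^ (64 * N) := by
  induction N with
  | zero => simp [pack]
  | succ N ih =>
    have h1 := ih (fun i hi => hc i (by omega))
    have h2 := hc N (by omega)
    unfold pack at h1 ⊢
    rw [Finset.sum_range_succ, show 64 * (N + 1) = 64 * N + 64 by ring, pow_add]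
    have h3 : 2 ^ (64 * N) * (c N + 1) ≤ 2 ^ (64 * N) * 2 ^ 64 := Nat.mul_le_mul_left _ h2
    rw [mul_add, mul_one] at h3
    omega

theorem testBit_pack (c : ℕ → ℕ) (N : ℕ) (hc : ∀ i < N, c i < 2 ^ 64) (j : ℕ) :
    (pack c N).testBit j = (decide (j / 64 < N) && (c (j / 64)).testBit (j % 64)) := by
  induction N with
  | zero => simp [pack]
  | succ N ih =>
    have hc' : ∀ i < N, c i < 2 ^ 64 := fun i hi => hc i (by omega)
    have h1 := pack_lt c N hc'
    have e : pack c (N + 1) = 2 ^ (64 * N) * c N + pack c N := by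
      unfold pack
      rw [Finset.sum_range_succ, add_comm]
    rw [e, Nat.testBit_two_pow_mul_add _ h1]
    split_ifs with h
    · rw [ih hc']
      have a1 : j / 64 < N := by omega
      have a2 : j / 64 < N + 1 := by omega
      simp [a1, a2]
    · by_cases h2 : j / 64 = N
      · have a2 : j / 64 < N + 1 := by omega
        have a3 : j - 64 * N = j % 64 := by omega
        simp [a3, h2]
      · have a2 : ¬ j / 64 < N + 1 := by omega
        have a3 : (c N).testBit (j - 64 * N) = false := by
          apply Nat.testBit_lt_two_pow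
          exact lt_of_lt_of_le (hc N (by omega)) (Nat.pow_le_pow_right (by norm_num) (by omega))
        simp [a2, a3]

theorem add_two_pow_eq_or (S u : ℕ) (h : S.testBit u = false) : S + 2 ^ u = S ||| 2 ^ u := by
  have hb : S % 2 ^ u < 2 ^ u := Nat.mod_lt _ (Nat.two_pow_pos u)
  have hS : S = 2 ^ u * (S / 2 ^ u) + S % 2 ^ u := (Nat.div_add_mod S (2 ^ u)).symm
  generalize S / 2 ^ u = a at hS
  generalize S % 2 ^ u = b at hS hb
  subst hS
  have ha : a % 2 = 0 := by
    rw [Nat.testBit_two_pow_mul_add _ hb] at h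
    simp only [lt_irrefl, if_false, Nat.sub_self, Nat.testBit_zero] at h
    have := of_decide_eq_false h
    omega
  apply Nat.eq_of_testBit_eq
  intro j
  rw [show 2 ^ u * a + b + 2 ^ u = 2 ^ u * (a + 1) + b by ring, Nat.testBit_or,
    Nat.testBit_two_pow_mul_add _ hb, Nat.testBit_two_pow_mul_add _ hb, Nat.testBit_two_pow]
  split_ifs with hj
  · have : ¬ u = j := by omega
    simp [this]
  · rcases Nat.eq_or_lt_of_le (not_lt.mp hj) with rfl | hlt
    · simp only [Nat.sub_self, Nat.testBit_zero, decide_true, Bool.or_true, decide_eq_true_eq]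
      omega
    · obtain ⟨i, hi⟩ : ∃ i, j - u = i + 1 := ⟨j - u - 1, by omega⟩
      have hne : ¬ u = j := by omega
      rw [hi, Nat.testBit_succ, Nat.testBit_succ, show (a + 1) / 2 = a / 2 by omega]
      simp [hne]

/-- The digit mask selecting the indices below `2^d` whose bit `u` is zero. -/
def mask (u : ℕ) : ℕ → ℕ
  | 0 => 2 ^ 64 - 1
  | d + 1 => if d = u then mask u d else mask u d ||| (mask u d <<< (64 * 2 ^ d))

theorem testBit_mask (u d j : ℕ) :
    (mask u d).testBit j = (decide (j / 64 < 2 ^ d) && !((j / 64).testBit u)) := by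
  induction d generalizing j with
  | zero =>
    rw [mask, Nat.testBit_two_pow_sub_one]
    by_cases h : j < 64
    · have : j / 64 = 0 := by omega
      simp [h, this]
    · have : ¬ j / 64 < 1 := by omega
      simp [h, this]
  | succ d ih =>
    rw [mask]
    have hp : 2 ^ (d + 1) = 2 ^ d + 2 ^ d := by ring
    split_ifs with h
    · subst h
      rw [ih]
      by_cases h1 : j / 64 < 2 ^ d
      · have : j / 64 < 2 ^ (d + 1) := by omega
        simp [h1, this]
      · by_cases h2 : j / 64 < 2 ^ (d + 1)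
        · obtain ⟨i, hi⟩ : ∃ i, j / 64 = 2 ^ d + i := ⟨j / 64 - 2 ^ d, by omega⟩
          have hi2 : i < 2 ^ d := by omega
          have : (j / 64).testBit d = true := by
            rw [hi, Nat.testBit_two_pow_add_eq, Nat.testBit_lt_two_pow hi2]; rfl
          simp [h1, this]
        · simp [h1, h2]
    · rw [Nat.testBit_or, Nat.testBit_shiftLeft, ih, ih]
      by_cases h1 : j / 64 < 2 ^ d
      · have a1 : j / 64 < 2 ^ (d + 1) := by omega
        have a2 : ¬ j ≥ 64 * 2 ^ d := by omega
        simp [h1, a1, a2]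
      · have a2 : j ≥ 64 * 2 ^ d := by omega
        obtain ⟨i, hi⟩ : ∃ i, j / 64 = 2 ^ d + i := ⟨j / 64 - 2 ^ d, by omega⟩
        have a3 : (j - 64 * 2 ^ d) / 64 = i := by omega
        rw [a3, hi]
        by_cases h2 : i < 2 ^ d
        · have a4 : 2 ^ d + i < 2 ^ (d + 1) := by omega
          have a5 : (2 ^ d + i).testBit u = i.testBit u := by
            rcases lt_or_gt_of_ne h with hlt | hlt
            · have b1 : 2 ^ (d + 1) ≤ 2 ^ u := Nat.pow_le_pow_right (by norm_num) hlt
              rw [Nat.testBit_lt_two_pow (by omega), Nat.testBit_lt_two_pow (by omega)]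
            · exact Nat.testBit_two_pow_add_gt hlt i
          simp [h2, a2, a4, a5]
        · have a4 : ¬ 2 ^ d + i < 2 ^ (d + 1) := by omega
          simp [h2, a4]

theorem shift_mask (c : ℕ → ℕ) (hc : ∀ i, c i < 2 ^ 64) (u : ℕ) (hu : u < 16) :
    (pack c (2 ^ 16) >>> (64 * 2 ^ u)) &&& mask u 16 =
      pack (fun S => if S.testBit u = false then c (S ||| 2 ^ u) else 0) (2 ^ 16) := by
  apply Nat.eq_of_testBit_eq
  intro j
  rw [Nat.testBit_and, Nat.testBit_shiftRight, testBit_mask, testBit_pack c _ (fun i _ => hc i),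
    testBit_pack _ _ (fun i _ => by split_ifs; exacts [hc _, by positivity])]
  have a1 : (64 * 2 ^ u + j) / 64 = j / 64 + 2 ^ u := by omega
  have a2 : (64 * 2 ^ u + j) % 64 = j % 64 := by omega
  rw [a1, a2]
  by_cases h1 : j / 64 < 2 ^ 16
  · cases hb : (j / 64).testBit u
    · have a3 : j / 64 + 2 ^ u < 2 ^ 16 := by
        rw [add_two_pow_eq_or _ _ hb]
        exact Nat.or_lt_two_pow h1 (Nat.pow_lt_pow_right (by norm_num) hu)
      rw [add_two_pow_eq_or _ _ hb] at a3 ⊢
      simp only [a3, h1, decide_true, Bool.true_and, Bool.not_false, Bool.and_true, if_true]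
    · simp
  · simp only [h1, decide_false, Bool.false_and, Bool.and_false]

theorem digit_pack (c : ℕ → ℕ) (N : ℕ) (hc : ∀ i < N, c i < 2 ^ 64) (i : ℕ) (hi : i < N) :
    (pack c N >>> (64 * i)) % 2 ^ 64 = c i := by
  apply Nat.eq_of_testBit_eq
  intro j
  rw [Nat.testBit_mod_two_pow, Nat.testBit_shiftRight, testBit_pack c N hc]
  by_cases hj : j < 64
  · have a1 : (64 * i + j) / 64 = i := by omega
    have a2 : (64 * i + j) % 64 = j := by omega
    simp [hj, a1, a2, hi]
  · have : (c i).testBit j = false :=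
      Nat.testBit_lt_two_pow (lt_of_lt_of_le (hc i hi) (Nat.pow_le_pow_right (by norm_num) (by omega)))
    simp [hj, this]

theorem pack_one (N : ℕ) : pack (fun _ => 1) N = (2 ^ (64 * N) - 1) / (2 ^ 64 - 1) := by
  unfold pack
  simp only [mul_one, pow_mul]
  exact Nat.geomSum_eq (by norm_num) N

theorem pack_sum {ι : Type*} (s : Finset ι) (f : ι → ℕ → ℕ) (N : ℕ) :
    pack (fun S => ∑ u ∈ s, f u S) N = ∑ u ∈ s, pack (f u) N := by
  unfold pack
  simp only [Finset.mul_sum]
  exact Finset.sum_comm

end Pool.Agent.P.MP_407208_co
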