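import Mathlib
import Pool.Agent.P.MP_407208_co.Pack

set_option autoImplicit false

namespace Pool.Agent.P.MP_407208_co

/-- Number of ways to continue a self-avoiding walk at `v` by `k` further steps avoiding `S`. -/
def ext (r : ℕ → ℕ → Bool) : ℕ → ℕ → ℕ → ℕ
  | 0, _, _ => 1
  | k + 1, S, v => ∑ u ∈ Finset.range 16,
      if r v u = true then (if S.testBit u = false then ext r k (S ||| 2 ^ u) u else 0) else 0

theorem ext_le (r : ℕ → ℕ → Bool) (k S v : ℕ) : ext r k S v ≤ 16 ^ k := by
  induction k generalizing S v with
  | zero => simp [ext]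
  | succ k ih =>
    rw [ext]
    calc _ ≤ ∑ _u ∈ Finset.range 16, 16 ^ k := by
          refine Finset.sum_le_sum (fun u _ => ?_)
          split_ifs
          · exact ih _ _
          · exact Nat.zero_le _
          · exact Nat.zero_le _
      _ = 16 ^ (k + 1) := by simp [pow_succ, mul_comm]

theorem ext_lt (r : ℕ → ℕ → Bool) (k S v : ℕ) (hk : k ≤ 15) : ext r k S v < 2 ^ 64 :=
  lt_of_le_of_lt (ext_le r k S v)
    (lt_of_le_of_lt (Nat.pow_le_pow_right (by norm_num) hk) (by norm_num))

/-- Evaluate a number before passing it on. -/
def forceNat (x : ℕ) (f : ℕ → ℕ) : ℕ :=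
  match x with
  | 0 => f 0
  | n + 1 => f (Nat.succ n)

theorem forceNat_eq (x : ℕ) (f : ℕ → ℕ) : forceNat x f = f x := by
  cases x <;> rfl

/-- Evaluate a list of numbers before passing it on. -/
def forceList : List ℕ → (List ℕ → ℕ) → ℕ
  | [], f => f []
  | x :: xs, f => forceNat x (fun y => forceList xs (fun ys => f (y :: ys)))

theorem forceList_eq (l : List ℕ) (f : List ℕ → ℕ) : forceList l f = f l := by
  induction l generalizing f with
  | nil => rfl
  | cons x xs ih => rw [forceList, forceNat_eq, ih]

def stepT (M E : List ℕ) : List ℕ :=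
  (List.range 16).map (fun u => (E.getD u 0 >>> (64 * 2 ^ u)) &&& M.getD u 0)

def stepE (r : ℕ → ℕ → Bool) (T : List ℕ) : List ℕ :=
  (List.range 16).map (fun v => (List.range 16).foldr
    (fun u acc => if r v u = true then T.getD u 0 + acc else acc) 0)

def finish (E : List ℕ) : ℕ :=
  ((List.range 16).map (fun v => (E.getD v 0 >>> (64 * 2 ^ v)) % 2 ^ 64)).sum

def run (r : ℕ → ℕ → Bool) (M : List ℕ) : ℕ → List ℕ → ℕ
  | 0, E => finish E
  | k + 1, E => forceList (stepT M E) (fun T => forceList (stepE r T) (fun E' => run r M k E'))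

def masks : List ℕ := (List.range 16).map (fun u => mask u 16)

def countPaths (r : ℕ → ℕ → Bool) (k : ℕ) : ℕ :=
  forceList masks (fun M => forceNat ((2 ^ (64 * 2 ^ 16) - 1) / (2 ^ 64 - 1))
    (fun x => run r M k (List.replicate 16 x)))

theorem getD_map_range (f : ℕ → ℕ) (u : ℕ) (hu : u < 16) :
    ((List.range 16).map f).getD u 0 = f u := by
  rw [List.getD_eq_getElem?_getD, List.getElem?_map, List.getElem?_range hu]
  rfl

theorem sum_map_range (f : ℕ → ℕ) {n : ℕ} :
    ((List.range n).map f).sum = ∑ u ∈ Finset.range n, f u := by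
  induction n with
  | zero => simp
  | succ n ih => rw [List.range_succ, List.map_append, List.sum_append, ih, Finset.sum_range_succ]; simp

theorem foldr_eq (p : ℕ → Bool) (g : ℕ → ℕ) (l : List ℕ) :
    l.foldr (fun u acc => if p u = true then g u + acc else acc) 0 =
      (l.map (fun u => if p u = true then g u else 0)).sum := by
  induction l with
  | nil => rfl
  | cons x xs ih =>
    rw [List.foldr_cons, List.map_cons, List.sum_cons, ih]
    split_ifs <;> simp

theorem run_eq (r : ℕ → ℕ → Bool) (k j : ℕ) (hk : k + j ≤ 15) (E : List ℕ)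
    (hE : ∀ v < 16, E.getD v 0 = pack (fun S => ext r j S v) (2 ^ 16)) :
    run r masks k E = ∑ v ∈ Finset.range 16, ext r (k + j) (2 ^ v) v := by
  induction k generalizing j E with
  | zero =>
    rw [run, finish, sum_map_range]
    refine Finset.sum_congr rfl (fun v hv => ?_)
    have hv' := Finset.mem_range.mp hv
    rw [hE v hv', digit_pack _ _ (fun i _ => ext_lt r j i v (by omega)) _
      (Nat.pow_lt_pow_right (by norm_num) hv'), zero_add]
  | succ k ih =>
    rw [run, forceList_eq, forceList_eq, ih (j + 1) (by omega),
      show k + (j + 1) = k + 1 + j by ring]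
    intro v hv
    rw [stepE, getD_map_range _ _ hv, foldr_eq, sum_map_range]
    simp only [ext]
    rw [pack_sum]
    refine Finset.sum_congr rfl (fun u hu => ?_)
    have hu' := Finset.mem_range.mp hu
    by_cases h : r v u = true
    · simp only [h, if_true]
      rw [stepT, getD_map_range _ _ hu', masks, getD_map_range _ _ hu', hE u hu',
        shift_mask _ (fun i => ext_lt r j i u (by omega)) u hu']
    · simp [h, pack]

theorem countPaths_eq (r : ℕ → ℕ → Bool) (k : ℕ) (hk : k ≤ 15) :
    countPaths r k = ∑ v ∈ Finset.range 16, ext r k (2 ^ v) v := by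
  rw [countPaths, forceList_eq, forceNat_eq, run_eq r k 0 (by omega), add_zero]
  intro v hv
  rw [← pack_one, List.getD_eq_getElem?_getD, List.getElem?_replicate, if_pos hv, Option.getD_some]
  simp only [ext]

/-- King adjacency on the cells `0, ..., 15` numbered row by row. -/
def kadj (a b : ℕ) : Bool :=
  decide (a ≠ b ∧ a / 4 ≤ b / 4 + 1 ∧ b / 4 ≤ a / 4 + 1 ∧ a % 4 ≤ b % 4 + 1 ∧ b % 4 ≤ a % 4 + 1)

def sw (p q a : ℕ) : ℕ := if a = p then q else if a = q then p else a

def both (p q a b : ℕ) : Bool := kadj a b && kadj (sw p q a) (sw p q b)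


open Finset in
theorem card_ext (r : ℕ → ℕ → Bool) (k : ℕ) (f : ℕ → Bool) (S : ℕ) :
    (univ.filter (fun a : Fin (k + 1) → Fin 16 => Function.Injective a ∧
      (∀ i, S.testBit (a i) = false) ∧ f (a 0) = true ∧
      ∀ i : Fin k, r (a i.castSucc) (a i.succ) = true)).card =
    ∑ u ∈ range 16, if f u = true then
      (if S.testBit u = false then ext r k (S ||| 2 ^ u) u else 0) else 0 := by
  induction k generalizing f S with
  | zero =>
    rw [← Fin.sum_univ_eq_sum_range (fun u => if f u = true then
      (if S.testBit u = false then ext r 0 (S ||| 2 ^ u) u else 0) else 0) 16]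
    rw [card_eq_sum_card_fiberwise (f := fun a => a 0) (t := univ) (fun _ _ => mem_univ _)]
    refine sum_congr rfl (fun u _ => ?_)
    simp only [ext]
    split_ifs with h1 h2
    · rw [card_eq_one]
      refine ⟨fun _ => u, ?_⟩
      ext a
      simp only [mem_filter, mem_univ, true_and, mem_singleton]
      constructor
      · rintro ⟨-, rfl⟩
        funext i
        rw [Fin.fin_one_eq_zero i]
      · rintro rfl
        exact ⟨⟨fun i j _ => Fin.ext (by omega), fun _ => h2, h1, fun i => i.elim0⟩, rfl⟩
    · rw [card_eq_zero, filter_eq_empty_iff]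
      intro a ha h
      simp only [mem_filter, mem_univ, true_and] at ha
      exact h2 (h ▸ ha.2.1 0)
    · rw [card_eq_zero, filter_eq_empty_iff]
      intro a ha h
      simp only [mem_filter, mem_univ, true_and] at ha
      exact h1 (h ▸ ha.2.2.1)
  | succ k ih =>
    rw [← Fin.sum_univ_eq_sum_range (fun u => if f u = true then
      (if S.testBit u = false then ext r (k + 1) (S ||| 2 ^ u) u else 0) else 0) 16]
    rw [card_eq_sum_card_fiberwise (f := fun a => a 0) (t := univ) (fun _ _ => mem_univ _)]
    refine sum_congr rfl (fun u _ => ?_)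
    split_ifs with h1 h2
    · rw [ext, ← ih (r u) (S ||| 2 ^ (u : ℕ))]
      symm
      refine card_bij (fun b _ => Fin.cons u b) ?_ ?_ ?_
      · intro b hb
        simp only [mem_filter, mem_univ, true_and] at hb ⊢
        obtain ⟨hb1, hb2, hb3, hb4⟩ := hb
        have hb5 : ∀ i, S.testBit (b i) = false ∧ b i ≠ u := by
          intro i
          have := hb2 i
          rw [Nat.testBit_or, Nat.testBit_two_pow, Bool.or_eq_false_iff] at this
          exact ⟨this.1, fun h => by simp [h] at this⟩
        refine ⟨⟨?_, ?_, ?_, ?_⟩, by simp⟩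
        · rw [Fin.cons_injective_iff]
          refine ⟨?_, hb1⟩
          rintro ⟨i, hi⟩
          exact (hb5 i).2 hi
        · intro i
          refine Fin.cases ?_ (fun j => ?_) i
          · simpa using h2
          · simpa using (hb5 j).1
        · simpa using h1
        · intro i
          refine Fin.cases ?_ (fun j => ?_) i
          · simpa using hb3
          · have := hb4 j
            simpa [← Fin.succ_castSucc] using this
      · intro b _ b' _ h
        funext i
        have := congrFun h i.succ
        simpa using this
      · intro a ha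
        simp only [mem_filter, mem_univ, true_and] at ha
        obtain ⟨⟨ha1, ha2, ha3, ha4⟩, ha5⟩ := ha
        refine ⟨Fin.tail a, ?_, ?_⟩
        · simp only [mem_filter, mem_univ, true_and]
          refine ⟨?_, ?_, ?_, ?_⟩
          · intro i j hij
            exact Fin.succ_injective _ (ha1 hij)
          · intro i
            rw [Nat.testBit_or, Nat.testBit_two_pow, Bool.or_eq_false_iff]
            refine ⟨ha2 _, ?_⟩
            rw [decide_eq_false_iff_not]
            intro h
            have : a 0 = a i.succ := by rw [ha5]; exact Fin.ext h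
            exact (Fin.succ_ne_zero i) (ha1 this).symm
          · have := ha4 0
            rw [← ha5]
            exact this
          · intro i
            have := ha4 i.succ
            rw [← Fin.succ_castSucc] at this
            exact this
        · rw [← ha5]
          exact Fin.cons_self_tail a
    · rw [card_eq_zero, filter_eq_empty_iff]
      intro a ha h
      simp only [mem_filter, mem_univ, true_and] at ha
      exact h2 (h ▸ ha.2.1 0)
    · rw [card_eq_zero, filter_eq_empty_iff]
      intro a ha h
      simp only [mem_filter, mem_univ, true_and] at ha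
      exact h1 (h ▸ ha.2.2.1)

open Finset in
theorem card_paths (r : ℕ → ℕ → Bool) (k : ℕ) (hk : k ≤ 15) :
    (univ.filter (fun a : Fin (k + 1) → Fin 16 => Function.Injective a ∧
      ∀ i : Fin k, r (a i.castSucc) (a i.succ) = true)).card = countPaths r k := by
  have := card_ext r k (fun _ => true) 0
  simp only [Nat.zero_testBit, implies_true, true_and, if_true, Nat.zero_or] at this
  rw [countPaths_eq r k hk, ← this]

end Pool.Agent.P.MP_407208_co
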