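import Mathlib

set_option autoImplicit false

namespace Pool.Agent.P.MP_407208_co

/-- Two cells of the `n × n` grid are adjacent in the king's graph. -/
def KingAdj {n : ℕ} (c d : Fin n × Fin n) : Prop :=
  c ≠ d ∧ (c.1 : ℕ) ≤ d.1 + 1 ∧ (d.1 : ℕ) ≤ c.1 + 1 ∧ (c.2 : ℕ) ≤ d.2 + 1 ∧ (d.2 : ℕ) ≤ c.2 + 1

/-- The `k`-letter words of the board `B` (a bijection from cells to labels). -/
def words {n : ℕ} (B : (Fin n × Fin n) ≃ Fin (n ^ 2)) (k : ℕ) : Set (Fin k → Fin (n ^ 2)) :=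
  {a | Function.Injective a ∧
    ∀ i j : Fin k, (j : ℕ) = i + 1 → KingAdj (B.symm (a i)) (B.symm (a j))}

/-- A corner cell. -/
def IsCorner {n : ℕ} (c : Fin n × Fin n) : Prop :=
  ((c.1 : ℕ) = 0 ∨ (c.1 : ℕ) + 1 = n) ∧ ((c.2 : ℕ) = 0 ∨ (c.2 : ℕ) + 1 = n)

/-- `B'` is obtained from `B` by exchanging the labels in a corner cell `c` and in a non-corner
boundary cell `s` sharing an edge with `c`. -/
def IsCornerSideSwap {n : ℕ} (B B' : (Fin n × Fin n) ≃ Fin (n ^ 2)) : Prop :=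
  ∃ c s : Fin n × Fin n, IsCorner c ∧ ¬ IsCorner s ∧
    ((s.1 : ℕ) = 0 ∨ (s.1 : ℕ) + 1 = n ∨ (s.2 : ℕ) = 0 ∨ (s.2 : ℕ) + 1 = n) ∧
    ((c.1 = s.1 ∧ ((c.2 : ℕ) + 1 = s.2 ∨ (s.2 : ℕ) + 1 = c.2)) ∨
      (c.2 = s.2 ∧ ((c.1 : ℕ) + 1 = s.1 ∨ (s.1 : ℕ) + 1 = c.1))) ∧
    B' c = B s ∧ B' s = B c ∧ ∀ x, x ≠ c → x ≠ s → B' x = B x

end Pool.Agent.P.MP_407208_co
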