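import Mathlib
import Pool.Agent.P.MP_407208_co.Defs
import Pool.Agent.P.MP_407208_co.Count5

set_option autoImplicit false

namespace Pool.Agent.P.MP_407208_co

/-- Row-by-row numbering of the cells of the `4 × 4` grid. -/
def cellEquiv : Fin 4 × Fin 4 ≃ Fin 16 := finProdFinEquiv

theorem kadj_iff : ∀ x y : Fin 4 × Fin 4,
    kadj (cellEquiv x) (cellEquiv y) = true ↔ KingAdj x y := by
  simp only [KingAdj]
  decide +kernel

theorem sw_eq (c s x : Fin 4 × Fin 4) :
    sw (cellEquiv c) (cellEquiv s) (cellEquiv x) = cellEquiv (Equiv.swap c s x) := by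
  unfold sw
  rw [Equiv.swap_apply_def]
  have h : ∀ a b : Fin 4 × Fin 4, ((cellEquiv a : ℕ) = cellEquiv b) ↔ a = b := by
    intro a b
    rw [Fin.val_inj, cellEquiv.apply_eq_iff_eq]
  simp only [h]
  split_ifs <;> rfl

theorem common_eq (B : (Fin 4 × Fin 4) ≃ Fin (4 ^ 2)) (c s : Fin 4 × Fin 4) (k : ℕ) (hk : k ≤ 15) :
    (words B (k + 1) ∩ words ((Equiv.swap c s).trans B) (k + 1)).ncard =
      countPaths (both (cellEquiv c) (cellEquiv s)) k := by
  rw [← card_paths _ k hk, ← Set.ncard_coe_finset]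
  have key : ∀ x y : Fin (4 ^ 2),
      both (cellEquiv c) (cellEquiv s) (cellEquiv (B.symm x)) (cellEquiv (B.symm y)) = true ↔
      KingAdj (B.symm x) (B.symm y) ∧
        KingAdj (((Equiv.swap c s).trans B).symm x) (((Equiv.swap c s).trans B).symm y) := by
    intro x y
    rw [both, Bool.and_eq_true, sw_eq, sw_eq, kadj_iff, kadj_iff]
    simp
  have hmem : ∀ a : Fin (k + 1) → Fin (4 ^ 2),
      a ∈ words B (k + 1) ∩ words ((Equiv.swap c s).trans B) (k + 1) ↔
      Function.Injective (fun i => cellEquiv (B.symm (a i))) ∧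
        ∀ i : Fin k, both (cellEquiv c) (cellEquiv s) (cellEquiv (B.symm (a i.castSucc)))
          (cellEquiv (B.symm (a i.succ))) = true := by
    intro a
    have hinj : Function.Injective (fun i => cellEquiv (B.symm (a i))) ↔ Function.Injective a :=
      (B.symm.trans cellEquiv).injective.of_comp_iff a
    rw [hinj]
    simp only [words, Set.mem_inter_iff, Set.mem_ofPred_eq, key]
    constructor
    · rintro ⟨⟨h1, h2⟩, -, h3⟩
      exact ⟨h1, fun i => ⟨h2 _ _ (by simp), h3 _ _ (by simp)⟩⟩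
    · rintro ⟨h1, h2⟩
      have hij : ∀ i j : Fin (k + 1), (j : ℕ) = i + 1 →
          ∃ l : Fin k, i = l.castSucc ∧ j = l.succ := by
        intro i j h
        refine ⟨⟨i, by omega⟩, Fin.ext (by simp), Fin.ext (by simpa using h)⟩
      refine ⟨⟨h1, fun i j h => ?_⟩, h1, fun i j h => ?_⟩
      · obtain ⟨l, rfl, rfl⟩ := hij i j h
        exact (h2 l).1
      · obtain ⟨l, rfl, rfl⟩ := hij i j h
        exact (h2 l).2
  refine Set.ncard_congr (fun a _ => fun i => cellEquiv (B.symm (a i))) ?_ ?_ ?_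
  · intro a ha
    simp only [Finset.coe_filter, Finset.mem_univ, true_and, Set.mem_ofPred_eq]
    exact (hmem a).mp ha
  · intro a b _ _ h
    funext i
    exact (B.symm.trans cellEquiv).injective (congrFun h i)
  · intro b hb
    simp only [Finset.coe_filter, Finset.mem_univ, true_and, Set.mem_ofPred_eq] at hb
    refine ⟨fun i => B (cellEquiv.symm (b i)), (hmem _).mpr ?_, ?_⟩
    · simpa using hb
    · funext i
      simp

theorem swap_cases : ∀ c s : Fin 4 × Fin 4, IsCorner c → ¬ IsCorner s →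
    ((c.1 = s.1 ∧ ((c.2 : ℕ) + 1 = s.2 ∨ (s.2 : ℕ) + 1 = c.2)) ∨
      (c.2 = s.2 ∧ ((c.1 : ℕ) + 1 = s.1 ∨ (s.1 : ℕ) + 1 = c.1))) →
    ((cellEquiv c : ℕ), (cellEquiv s : ℕ)) ∈
      [(0, 1), (0, 4), (3, 2), (3, 7), (12, 8), (12, 13), (15, 11), (15, 14)] := by
  simp only [IsCorner]
  decide +kernel

theorem corner_count (B B' : (Fin 4 × Fin 4) ≃ Fin (4 ^ 2)) (h : IsCornerSideSwap B B') :
    (words B 12 ∩ words B' 12).ncard = 968224 := by
  obtain ⟨c, s, hc, hs, -, hcs, h1, h2, h3⟩ := h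
  have hB : B' = (Equiv.swap c s).trans B := by
    ext x
    congr 1
    rw [Equiv.trans_apply, Equiv.swap_apply_def]
    split_ifs with a1 a2
    · rw [a1, h1]
    · rw [a2, h2]
    · exact h3 x a1 a2
  rw [hB, common_eq B c s 11 (by norm_num)]
  have := swap_cases c s hc hs hcs
  simp only [List.mem_cons, Prod.mk.injEq, List.not_mem_nil, or_false] at this
  rcases this with h | h | h | h | h | h | h | h <;> rw [h.1, h.2]
  exacts [count_0_1, count_0_4, count_3_2, count_3_7, count_12_8, count_12_13, count_15_11,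
    count_15_14]

theorem main (B : (Fin 4 × Fin 4) ≃ Fin (4 ^ 2)) :
    (∃ Bs, IsCornerSideSwap B Bs) ∧
    ∃ B' : (Fin 4 × Fin 4) ≃ Fin (4 ^ 2), (¬ ∀ k : ℕ, 2 ≤ k → words B k = words B' k) ∧
      ∀ Bs, IsCornerSideSwap B Bs →
        (words B 12 ∩ words Bs 12).ncard < (words B 12 ∩ words B' 12).ncard := by
  refine ⟨⟨(Equiv.swap (0, 0) (0, 1)).trans B, (0, 0), (0, 1), ?_, ?_, ?_, ?_, ?_, ?_, ?_⟩,
    (Equiv.swap (0, 1) (1, 1)).trans B, ?_, ?_⟩
  · simp [IsCorner]
  · simp [IsCorner]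
  · simp
  · simp
  · simp
  · simp
  · intro x h1 h2
    simp [Equiv.swap_apply_of_ne_of_ne h1 h2]
  · intro h
    have h2 := h 2 le_rfl
    have hm : ![B (1, 1), B (2, 1)] ∈ words B 2 := by
      refine ⟨?_, ?_⟩
      · intro i j hij
        fin_cases i <;> fin_cases j <;> simp_all
      · intro i j hij
        fin_cases i <;> fin_cases j <;> simp_all [KingAdj]
    rw [h2] at hm
    have := hm.2 0 1 rfl
    simp [KingAdj, Equiv.swap_apply_def] at this
  · intro Bs hBs
    rw [corner_count B Bs hBs, common_eq B (0, 1) (1, 1) 11 (by norm_num)]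
    have e1 : (cellEquiv (0, 1) : ℕ) = 1 := rfl
    have e2 : (cellEquiv (1, 1) : ℕ) = 5 := rfl
    rw [e1, e2, count_1_5]
    norm_num

end Pool.Agent.P.MP_407208_co
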